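import Pool.Agent.H38.PS.Targets

/-! `PIG`: the pigeonhole principle for the products of `r` elements of `P`. -/

set_option autoImplicit false

namespace Pool.Agent.H95.PS

open Pool.Agent.H38.PS

theorem pig_pos {S : Finset ℕ} (hS : ∀ q ∈ S, q.Prime) : 0 < pd S :=
  Finset.prod_pos fun q hq => (hS q hq).pos

/-- the relation between the products -/
theorem pig_prod {S U U' : Finset ℕ} {V W : ℕ → ℕ} {r B : ℕ} (hU : U.card = r) (hU' : U'.card = r)
    (hV : ∀ p ∈ U ∪ U', V p ≠ 0 ∧ W p ≠ 0 ∧ (V p).primeFactors ⊆ S ∧ (W p).primeFactors ⊆ S ∧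
      ∀ q, (W p).factorization q ≤ B)
    (h : ∀ q ∈ S, ∑ p ∈ U, ((V p).factorization q + (B - (W p).factorization q)) =
      ∑ p ∈ U', ((V p).factorization q + (B - (W p).factorization q))) :
    (∏ p ∈ U, V p) * ∏ p ∈ U', W p = (∏ p ∈ U', V p) * ∏ p ∈ U, W p := by
  have hm : ∀ p ∈ U, p ∈ U ∪ U' := fun p hp => Finset.mem_union_left _ hp
  have hm' : ∀ p ∈ U', p ∈ U ∪ U' := fun p hp => Finset.mem_union_right _ hp
  have nV : ∏ p ∈ U, V p ≠ 0 := Finset.prod_ne_zero_iff.2 fun p hp => (hV p (hm p hp)).1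
  have nW : ∏ p ∈ U, W p ≠ 0 := Finset.prod_ne_zero_iff.2 fun p hp => (hV p (hm p hp)).2.1
  have nV' : ∏ p ∈ U', V p ≠ 0 := Finset.prod_ne_zero_iff.2 fun p hp => (hV p (hm' p hp)).1
  have nW' : ∏ p ∈ U', W p ≠ 0 := Finset.prod_ne_zero_iff.2 fun p hp => (hV p (hm' p hp)).2.1
  refine Nat.eq_of_factorization_eq (mul_ne_zero nV nW') (mul_ne_zero nV' nW) fun q => ?_
  rw [Nat.factorization_mul nV nW', Nat.factorization_mul nV' nW,
    Nat.factorization_prod fun p hp => (hV p (hm p hp)).1,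
    Nat.factorization_prod fun p hp => (hV p (hm p hp)).2.1,
    Nat.factorization_prod fun p hp => (hV p (hm' p hp)).1,
    Nat.factorization_prod fun p hp => (hV p (hm' p hp)).2.1]
  simp only [Finsupp.coe_add, Pi.add_apply, Finsupp.coe_finsetSum, Finset.sum_apply]
  by_cases hq : q ∈ S
  · have key : ∀ T : Finset ℕ, T ⊆ U ∪ U' → T.card = r →
        ∑ p ∈ T, ((V p).factorization q + (B - (W p).factorization q)) +
          ∑ p ∈ T, (W p).factorization q = ∑ p ∈ T, (V p).factorization q + r * B := by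
      intro T hT hc
      rw [← Finset.sum_add_distrib]
      have e : ∀ p ∈ T, (V p).factorization q + (B - (W p).factorization q) +
          (W p).factorization q = (V p).factorization q + B := fun p hp => by
        have := (hV p (hT hp)).2.2.2.2 q
        omega
      rw [Finset.sum_congr rfl e, Finset.sum_add_distrib, Finset.sum_const, hc, smul_eq_mul]
    have h1 := key U Finset.subset_union_left hU
    have h2 := key U' Finset.subset_union_right hU'
    have h3 := h q hq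
    omega
  · have z : ∀ p ∈ U ∪ U', (V p).factorization q = 0 ∧ (W p).factorization q = 0 := by
      intro p hp
      obtain ⟨_, _, h3, h4, _⟩ := hV p hp
      exact ⟨Finsupp.notMem_support_iff.1 fun hh => hq (h3 hh),
        Finsupp.notMem_support_iff.1 fun hh => hq (h4 hh)⟩
    rw [Finset.sum_eq_zero fun p hp => (z p (hm p hp)).1,
      Finset.sum_eq_zero fun p hp => (z p (hm' p hp)).2,
      Finset.sum_eq_zero fun p hp => (z p (hm' p hp)).1,
      Finset.sum_eq_zero fun p hp => (z p (hm p hp)).2]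

/-- the powers of the products are congruent -/
theorem pig_mod {U U' : Finset ℕ} {V W : ℕ → ℕ} {g n r : ℕ} {σ : ℤ} (hU : U.card = r)
    (hU' : U'.card = r) (hW : ∀ p ∈ U ∪ U', (W p).Coprime g)
    (hd : ∀ p ∈ U ∪ U', (g : ℤ) ∣ (W p : ℤ) * (p : ℤ) ^ n - σ * (V p : ℤ))
    (h : (∏ p ∈ U, V p) * ∏ p ∈ U', W p = (∏ p ∈ U', V p) * ∏ p ∈ U, W p) :
    (∏ p ∈ U, p) ^ n ≡ (∏ p ∈ U', p) ^ n [MOD g] := by
  rw [← ZMod.natCast_eq_natCast_iff]
  have e : ∀ p ∈ U ∪ U', (W p : ZMod g) * (p : ZMod g) ^ n = (σ : ZMod g) * (V p : ZMod g) := by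
    intro p hp
    have h1 := (ZMod.intCast_zmod_eq_zero_iff_dvd _ g).2 (hd p hp)
    push_cast at h1
    exact sub_eq_zero.1 h1
  have key : ∀ T : Finset ℕ, T ⊆ U ∪ U' → T.card = r →
      (∏ p ∈ T, (W p : ZMod g)) * (∏ p ∈ T, (p : ZMod g)) ^ n =
        (σ : ZMod g) ^ r * ∏ p ∈ T, (V p : ZMod g) := by
    intro T hT hc
    rw [← Finset.prod_pow, ← Finset.prod_mul_distrib, Finset.prod_congr rfl fun p hp => e p (hT hp),
      Finset.prod_mul_distrib, Finset.prod_const, hc]
  have h1 := key U Finset.subset_union_left hU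
  have h2 := key U' Finset.subset_union_right hU'
  have h3 : (∏ p ∈ U, (V p : ZMod g)) * ∏ p ∈ U', (W p : ZMod g) =
      (∏ p ∈ U', (V p : ZMod g)) * ∏ p ∈ U, (W p : ZMod g) := by
    have := congrArg (fun t : ℕ => (t : ZMod g)) h
    push_cast at this
    exact this
  have hu : IsUnit ((∏ p ∈ U, (W p : ZMod g)) * ∏ p ∈ U', (W p : ZMod g)) := by
    refine IsUnit.mul ?_ ?_
    · rw [IsUnit.prod_iff]
      exact fun p hp => (ZMod.isUnit_iff_coprime _ _).2 (hW p (Finset.mem_union_left _ hp))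
    · rw [IsUnit.prod_iff]
      exact fun p hp => (ZMod.isUnit_iff_coprime _ _).2 (hW p (Finset.mem_union_right _ hp))
  push_cast
  refine hu.mul_left_cancel ?_
  calc _ = ((∏ p ∈ U, (W p : ZMod g)) * (∏ p ∈ U, (p : ZMod g)) ^ n) *
        ∏ p ∈ U', (W p : ZMod g) := by ring
    _ = (σ : ZMod g) ^ r * ((∏ p ∈ U, (V p : ZMod g)) * ∏ p ∈ U', (W p : ZMod g)) := by
        rw [h1]; ring
    _ = ((σ : ZMod g) ^ r * ∏ p ∈ U', (V p : ZMod g)) * ∏ p ∈ U, (W p : ZMod g) := by
        rw [h3]; ring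
    _ = _ := by rw [← h2]; ring

theorem pf_PIG (hLTE : T_LTE) : T_PIG := by
  classical
  intro S P V W g n r B σ X hS hP hg hgS hn _ hVW hd hlt
  have h1 : (Finset.range (2 * pd S) ×ˢ
      Fintype.piFinset (fun _ : S => Finset.range (2 * r * B + 1))).card <
      (P.powersetCard r).card := by
    rw [Finset.card_product, Finset.card_range, Fintype.card_piFinset, Finset.prod_const,
      Finset.card_range, Finset.card_univ, Fintype.card_coe, Finset.card_powersetCard]
    exact hlt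
  obtain ⟨U, hU, U', hU', hne, hUU⟩ := Finset.exists_ne_map_eq_of_card_lt_of_maps_to h1
    (f := fun U => ((∏ p ∈ U, p) % (2 * pd S), fun q : S =>
      ∑ p ∈ U, ((V p).factorization q + (B - (W p).factorization q)))) (by
      intro U hU
      rw [Finset.mem_coe, Finset.mem_powersetCard] at hU
      rw [Finset.mem_coe, Finset.mem_product, Fintype.mem_piFinset]
      refine ⟨Finset.mem_range.2 (Nat.mod_lt _ (by have := pig_pos hS; omega)), fun q => ?_⟩
      rw [Finset.mem_range]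
      have h2 : ∑ p ∈ U, ((V p).factorization q + (B - (W p).factorization q)) ≤
          ∑ p ∈ U, (2 * B) := by
        refine Finset.sum_le_sum fun p hp => ?_
        have := (hVW p (hU.1 hp)).2.2.2.2.2.1 q
        omega
      rw [Finset.sum_const, hU.2, smul_eq_mul] at h2
      have h3 : r * (2 * B) = 2 * r * B := by ring
      dsimp only
      omega)
  rw [Finset.mem_powersetCard] at hU hU'
  rw [Prod.mk.injEq] at hUU
  have hsub : U ∪ U' ⊆ P := Finset.union_subset hU.1 hU'.1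
  have h2 := pig_prod (S := S) (V := V) (W := W) (B := B) hU.2 hU'.2 (fun p hp => by
      obtain ⟨a, b, c, d, _, _, f⟩ := hVW p (hsub hp)
      exact ⟨a, b, c, d, f⟩) (fun q hq => congrFun hUU.2 ⟨q, hq⟩)
  have h3 := pig_mod (V := V) (W := W) (g := g) (n := n) (σ := σ) hU.2 hU'.2
    (fun p hp => (hVW p (hsub hp)).2.2.2.2.1) (fun p hp => hd p (hsub hp)) h2
  have hcop : (∏ p ∈ U, p).Coprime g := by
    refine Nat.Coprime.prod_left fun p hp => ?_
    obtain ⟨hp1, hp2, _⟩ := hP p (hU.1 hp)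
    rw [Nat.Prime.coprime_iff_not_dvd hp1]
    exact fun hpg => hp2 (hgS (Nat.mem_primeFactors.2 ⟨hp1, hpg, hg⟩))
  have hmm : (∏ p ∈ U, p) ≠ ∏ p ∈ U', p := by
    intro h
    apply hne
    rw [← Nat.primeFactors_prod fun p hp => (hP p (hU.1 hp)).1, h,
      Nat.primeFactors_prod fun p hp => (hP p (hU'.1 hp)).1]
  have h4 := hLTE g n _ _ S hS hg hn hgS hcop hmm hUU.1 h3
  have h5 : ∀ T ⊆ P, T.card = r → ((∏ p ∈ T, p : ℕ) : ℝ) ≤ X ^ r := by
    intro T hT hc
    push_cast
    refine (Finset.prod_le_prod (fun p _ => Nat.cast_nonneg p)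
      fun p hp => (hP p (hT hp)).2.2).trans ?_
    rw [Finset.prod_const, hc]
  have h6 : (g : ℝ) ≤ n * ((max (∏ p ∈ U, p) (∏ p ∈ U', p) : ℕ) : ℝ) := by exact_mod_cast h4
  refine h6.trans (mul_le_mul_of_nonneg_left ?_ (Nat.cast_nonneg n))
  rw [Nat.cast_max]
  exact max_le (h5 U hU.1 hU.2) (h5 U' hU'.1 hU'.2)

end Pool.Agent.H95.PS
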