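import Pool.Agent.H38.PS.Targets
import Pool.Agent.H74.RB.CNTA

/-! `LGT`: the triples for which the radical divided by a set of primes of small weight is at most
`Y`. -/

set_option autoImplicit false

namespace Pool.Agent.H95.PS

open Pool.Agent.H38.RB Pool.Agent.H38.PS

theorem lgt_sqf {S : Finset ℕ} (hS : ∀ q ∈ S, q.Prime) : Squarefree (pd S) := by
  induction S using Finset.induction_on with
  | empty => simp [pd]
  | insert p S hp ih =>
    have h1 : pd (insert p S) = p * pd S := Finset.prod_insert hp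
    rw [h1, Nat.squarefree_mul_iff]
    refine ⟨?_, (hS p (Finset.mem_insert_self p S)).prime.squarefree,
      ih fun q hq => hS q (Finset.mem_insert_of_mem hq)⟩
    refine Nat.Coprime.prod_right fun q hq => ?_
    rw [Nat.coprime_primes (hS p (Finset.mem_insert_self p S)) (hS q (Finset.mem_insert_of_mem hq))]
    rintro rfl
    exact hp hq

theorem pf_LGT (hQR : T_QR) (hCOME : T_COME) : T_LGT := by
  intro ε hε
  obtain ⟨A, hA, hQ⟩ := hQR (6 / 7) (by norm_num)
  obtain ⟨C, hC, hcom⟩ := hCOME A ε hA hε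
  refine ⟨A * C, by positivity, fun Y hY => ?_⟩
  have hY0 : 0 < Y := by linarith
  have hsub : {x | ∃ S : Finset ℕ, (∀ p ∈ S, p.Prime) ∧ (pd S : ℝ) ≤ Y ∧ x ∈ Sol (6 / 7) S} ⊆
      ⋃ t ∈ sq Y, Sol (6 / 7) t.primeFactors := by
    rintro x ⟨S, hS, hSY, hx⟩
    refine Set.mem_iUnion₂.2 ⟨pd S, ?_, ?_⟩
    · unfold Pool.Agent.H38.RB.sq
      rw [Finset.mem_filter, Finset.mem_Icc]
      exact ⟨⟨Finset.prod_pos fun q hq => (hS q hq).pos, Nat.le_floor hSY⟩, lgt_sqf hS⟩
    · have h1 : (pd S).primeFactors = S := Nat.primeFactors_prod hS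
      rw [h1]
      exact hx
  obtain ⟨h1, h2⟩ := cnta_union (sq Y) (fun t => Sol (6 / 7) t.primeFactors)
    (fun t => A ^ (t.primeFactors.card + 1))
    fun t => hQ _ fun p hp => Nat.prime_of_mem_primeFactors hp
  refine ⟨h1.subset hsub, ?_⟩
  calc _ ≤ ((⋃ t ∈ sq Y, Sol (6 / 7) t.primeFactors).ncard : ℝ) := by
        exact_mod_cast Set.ncard_le_ncard hsub h1
    _ ≤ ∑ t ∈ sq Y, A ^ (t.primeFactors.card + 1) := h2
    _ = A * ∑ t ∈ sq Y, A ^ t.primeFactors.card := by
        rw [Finset.mul_sum]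
        exact Finset.sum_congr rfl fun t _ => by rw [pow_succ, mul_comm]
    _ ≤ A * (C * Y ^ (1 + ε)) := by
        have := hcom Y hY0
        gcongr
    _ = _ := by ring

end Pool.Agent.H95.PS
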